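import Mathlib
import Pool.Agent.H499R2.LT.R1
import Pool.Agent.H499R2.LT.CY

set_option autoImplicit false

/-!
Local limit theorem for the basins of the cycles of the `3x+1` map on the integers.
-/

namespace Pool.Agent.Results.MP_edb5be_nt.BasinLocalLimit

open Filter Topology

/-- the `3x+1` map on the integers -/
def T (x : ℤ) : ℤ := if x % 2 = 0 then x / 2 else (3 * x + 1) / 2

/-- `Z` is a cycle of `T`. -/
def IsCycle (Z : Finset ℤ) : Prop :=
  ∃ (x : ℤ) (p : ℕ), 1 ≤ p ∧ T^[p] x = x ∧ Z = (Finset.range p).image fun i => T^[i] x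

/-- the number of odd terms among `x, T x, ..., T^(k-1) x` -/
def odds (k : ℕ) (x : ℤ) : ℕ := ((Finset.range k).filter fun i => T^[i] x % 2 = 1).card

/-- The integers whose trajectory enters `Z` after exactly `k` steps, exactly `o` of the terms
before the entrance being odd. -/
def Level (Z : Finset ℤ) (k o : ℕ) : Set ℤ :=
  {x : ℤ | T^[k] x ∈ Z ∧ (∀ i < k, T^[i] x ∉ Z) ∧ odds k x = o}

theorem odds_eq (k : ℕ) (x : ℤ) : Pool.Agent.H499R2.LT.od 1 k x = (odds k x : ℤ) := by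
  induction k with
  | zero => rfl
  | succ k ih =>
    rw [Pool.Agent.H499R2.LT.od_add, ih]
    unfold odds
    rw [Finset.range_add_one, Finset.filter_insert]
    have h1 : Pool.Agent.H499R2.LT.od 1 1 (T^[k] x) = if T^[k] x % 2 = 0 then 0 else 1 := by
      rw [Pool.Agent.H499R2.LT.od, Pool.Agent.H499R2.LT.od, add_zero]
    change _ + Pool.Agent.H499R2.LT.od 1 1 (T^[k] x) = _
    rw [h1]
    rcases Int.emod_two_eq_zero_or_one (T^[k] x) with h | h
    · rw [if_pos h, if_neg (by omega)]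
      simp
    · rw [if_neg (by omega), if_pos h, Finset.card_insert_of_notMem (by simp)]
      push_cast
      ring

theorem sign_iter {s : ℤ} (hs : s = 1 ∨ s = -1) (x : ℤ) (k : ℕ) : 0 < s * x ↔ 0 < s * T^[k] x :=
  Pool.Agent.H499R2.ND.Td_one_iter_sign hs x k

theorem level_eq {s : ℤ} (hs : s = 1 ∨ s = -1) {Z : Finset ℤ} (hZ : ∀ y ∈ Z, 0 < s * y) (k o : ℕ) :
    Level Z k o = Pool.Agent.H499R2.LT.Lev 1 s Z k o := by
  ext x
  unfold Level Pool.Agent.H499R2.LT.Lev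
  rw [Set.mem_ofPred_eq, Set.mem_ofPred_eq, odds_eq, Nat.cast_inj]
  constructor
  · rintro ⟨h1, h2, h3⟩
    exact ⟨(sign_iter hs x k).2 (hZ _ h1), h1, h2, h3⟩
  · rintro ⟨_, h1, h2, h3⟩
    exact ⟨h1, h2, h3⟩

/-- Local limit theorem for the basins of the cycles. Let `Z` be a cycle of `T` consisting of
integers of one sign. The integers which enter `Z` after exactly `k` steps, `o` of them odd, are of
the size of `2^k / 3^o`, up to a factor `A`, and there is a positive constant `c` such that, for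
every `K`, their number is `(c + o(1)) * binomial(k, o) / 3^o`, uniformly for `|2 o - k| ≤ K √k`,
as `k → ∞`. -/
theorem result (s : ℤ) (hs : s = 1 ∨ s = -1) (Z : Finset ℤ) (hZ : IsCycle Z)
    (hsZ : ∀ y ∈ Z, 0 < s * y) :
    ∃ A c : ℝ, 1 ≤ A ∧ 0 < c ∧
      (∀ (k o : ℕ) (x : ℤ), x ∈ Level Z k o →
        2 ^ k / (A * 3 ^ o) ≤ |(x : ℝ)| ∧ |(x : ℝ)| ≤ A * 2 ^ k / 3 ^ o) ∧
      ∀ K ε : ℝ, 0 < ε → ∃ k0 : ℕ, ∀ k o : ℕ, k0 ≤ k → |2 * (o : ℝ) - k| ≤ K * Real.sqrt k →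
        |((Level Z k o).ncard : ℝ) * 3 ^ o / (k.choose o : ℝ) - c| ≤ ε := by
  obtain ⟨A, hA, hA'⟩ := Pool.Agent.H499R2.LT.lev_size odd_one (by omega) (s := s) Z
  obtain ⟨δ, c, _, _, h3, h4, _, _, h6⟩ := Pool.Agent.H499R2.LT.laws_side odd_one (by omega) hs Z
  have h0 : 0 < c := by
    apply h3.2
    apply h4
    obtain ⟨x, p, hp, hx, rfl⟩ := hZ
    have hxZ : x ∈ (Finset.range p).image fun i => T^[i] x :=
      Finset.mem_image.2 ⟨0, Finset.mem_range.2 hp, rfl⟩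
    have hx0 : x ≠ 0 := by
      rintro rfl
      simpa using hsZ 0 hxZ
    obtain ⟨a, ha, ha3⟩ := Pool.Agent.H499R2.LT.CY.prime3 (T := T) hx0 hp
      (fun y hy => by unfold T; rw [if_pos hy]) (fun y hy => by unfold T; rw [if_neg (by omega)]) hx
    exact ⟨a, ha, hsZ a ha, ha3⟩
  refine ⟨A, c, hA, h0, ?_, ?_⟩
  · intro k o x hx
    rw [level_eq hs hsZ] at hx
    exact hA' k o x hx
  · intro K ε hε
    obtain ⟨k0, hk0⟩ := h6 K ε hε
    refine ⟨k0, fun k o hk ho => ?_⟩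
    rw [level_eq hs hsZ]
    exact hk0 k o hk ho

end Pool.Agent.Results.MP_edb5be_nt.BasinLocalLimit
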