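import Mathlib
import Pool.Agent.H319R2.Bohr
import Pool.Agent.H319R2.Rigid

set_option autoImplicit false

/-!
Almost no positive integer is the length of a cycle of the 3x+1 map on the integers.
-/

namespace Pool.Agent.Results.MP_edb5be_nt.CycleLengths

open Finset

/-- The 3x+1 map on the integers. -/
def T (x : ℤ) : ℤ := if x % 2 = 0 then x / 2 else (3 * x + 1) / 2

/-- The lengths of the cycles of `T` on the integers: `p ≥ 1` such that some integer (positive,
negative or zero) has exact period `p`. -/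
def cycleLengths : Set ℕ := {p | 0 < p ∧ ∃ x : ℤ, Function.minimalPeriod T x = p}

theorem T_eq : T = Pool.Agent.H319R2.T := rfl

/-- every cycle has an element of least absolute value -/
theorem exists_min {p : ℕ} (hp : p ∈ cycleLengths) :
    ∃ y : ℤ, Function.minimalPeriod T y = p ∧ ∀ j, |y| ≤ |T^[j] y| := by
  obtain ⟨hp0, x, hx⟩ := hp
  have hper : x ∈ Function.periodicPts T := by
    rw [← Function.minimalPeriod_pos_iff_mem_periodicPts, hx]; exact hp0
  -- a minimiser of `j ↦ |T^[j] x|`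
  obtain ⟨i, hi⟩ : ∃ i : ℕ, ∀ j : ℕ, (T^[i] x).natAbs ≤ (T^[j] x).natAbs := by
    classical
    have hne : ∃ n : ℕ, ∃ i : ℕ, (T^[i] x).natAbs = n := ⟨_, 0, rfl⟩
    obtain ⟨i, hi⟩ := Nat.find_spec hne
    refine ⟨i, fun j => ?_⟩
    rw [hi]
    exact Nat.find_min' hne ⟨j, rfl⟩
  refine ⟨T^[i] x, ?_, ?_⟩
  · rw [Function.minimalPeriod_apply_iterate hper, hx]
  · intro j
    rw [← Function.iterate_add_apply]
    have := hi (j + i)
    rw [Int.abs_eq_natAbs, Int.abs_eq_natAbs]
    exact_mod_cast this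

/-- For every `η` larger than the base-two binary entropy `0.94995...` of `log 2 / log 3` there is
`C` such that for every `P ≥ 1` at most `C P ^ η` of the numbers `1, ..., P` are lengths of cycles
of the 3x+1 map on the integers; `η = 0.951` is admissible. -/
theorem result :
    (∀ η : ℝ, Real.binEntropy (Real.log 2 / Real.log 3) / Real.log 2 < η →
      ∃ C : ℝ, ∀ P : ℕ, 1 ≤ P →
        (Set.ncard {p : ℕ | p ∈ cycleLengths ∧ p ≤ P} : ℝ) ≤ C * (P : ℝ) ^ η) ∧
    Real.binEntropy (Real.log 2 / Real.log 3) / Real.log 2 < 0.951 := by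
  classical
  refine ⟨?_, Pool.Agent.H319R2.beta_lt⟩
  intro η' hη'
  change Pool.Agent.H319R2.beta < η' at hη'
  set η : ℝ := min η' 0.96 with hηdef
  have hη : Pool.Agent.H319R2.beta < η := by
    rw [hηdef, lt_min_iff]
    exact ⟨hη', by have := Pool.Agent.H319R2.beta_lt; linarith⟩
  have hη1 : η < 1 := lt_of_le_of_lt (min_le_right _ _) (by norm_num)
  have hη12 : 12 / 13 < η := Pool.Agent.H319R2.beta_gt.trans hη
  obtain ⟨C1, hC1, hsp⟩ := Pool.Agent.H319R2.sparse η hη
  obtain ⟨C2, hC2, hrig⟩ := Pool.Agent.H319R2.cycle_rigid η hη hη1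
  obtain ⟨C3, hC3, hbohr⟩ := Pool.Agent.H319R2.bohr_count
  refine ⟨C1 + C3 * (C2 + 1) + 1, ?_⟩
  intro P hP
  have hPr : (1 : ℝ) ≤ P := by exact_mod_cast hP
  have hpe : (P : ℝ) ^ η ≤ (P : ℝ) ^ η' :=
    Real.rpow_le_rpow_of_exponent_le hPr (min_le_left _ _)
  suffices h : (Set.ncard {p : ℕ | p ∈ cycleLengths ∧ p ≤ P} : ℝ) ≤
      (C1 + C3 * (C2 + 1) + 1) * (P : ℝ) ^ η from
    h.trans (mul_le_mul_of_nonneg_left hpe (by positivity))
  -- choose the minimal elements
  have hch : ∀ p : ℕ, ∃ y : ℤ, p ∈ cycleLengths →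
      Function.minimalPeriod T y = p ∧ ∀ j, |y| ≤ |T^[j] y| := by
    intro p
    by_cases hp : p ∈ cycleLengths
    · obtain ⟨y, hy⟩ := exists_min hp
      exact ⟨y, fun _ => hy⟩
    · exact ⟨0, fun h => absurd h hp⟩
  choose f hf using hch
  set L : Finset ℕ := (range (P + 1)).filter (fun p => p ∈ cycleLengths) with hL
  have hset : {p : ℕ | p ∈ cycleLengths ∧ p ≤ P} = (L : Set ℕ) := by
    ext p
    rw [hL]
    simp only [Set.mem_ofPred_eq, coe_filter, mem_range, Nat.lt_succ_iff]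
    tauto
  rw [hset, Set.ncard_coe_finset]
  set L1 := L.filter (fun p => |((f p : ℤ) : ℝ)| ≤ P) with hL1
  set L2 := L.filter (fun p => ¬ |((f p : ℤ) : ℝ)| ≤ P) with hL2
  have hsplit : L1.card + L2.card = L.card := by
    rw [hL1, hL2]; exact card_filter_add_card_filter_not (s := L) _
  have hLmem : ∀ p ∈ L, p ∈ cycleLengths ∧ p ≤ P := by
    intro p hp
    rw [hL, mem_filter, mem_range] at hp
    exact ⟨hp.2, by omega⟩
  -- cycles with small least element
  have h1 : (L1.card : ℝ) ≤ C1 * (P : ℝ) ^ η := by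
    have hinj : Set.InjOn f L1 := by
      intro p hp p' hp' h
      have hp := (mem_filter.1 hp).1
      have hp' := (mem_filter.1 hp').1
      rw [← (hf p (hLmem p hp).1).1, ← (hf p' (hLmem p' hp').1).1, h]
    rw [← card_image_of_injOn hinj]
    apply hsp _ Pool.Agent.H319R2.tame_periodic P hPr
    intro x hx
    rw [mem_image] at hx
    obtain ⟨p, hp, rfl⟩ := hx
    rw [hL1, mem_filter] at hp
    refine ⟨?_, hp.2⟩
    rw [← T_eq, ← Function.minimalPeriod_pos_iff_mem_periodicPts, (hf p (hLmem p hp.1).1).1]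
    exact (hLmem p hp.1).1.1
  -- cycles with large least element
  have h2 : (L2.card : ℝ) ≤ C3 * (C2 * (P : ℝ) ^ (η - 1) * P + (P : ℝ) ^ (12 / 13 : ℝ)) := by
    apply hbohr P hP _ (by positivity)
    intro p hp
    rw [hL2, mem_filter] at hp
    obtain ⟨hpL, hbig⟩ := hp
    obtain ⟨hpc, hpP⟩ := hLmem p hpL
    obtain ⟨hy1, hy2⟩ := hf p hpc
    refine ⟨hpP, (Pool.Agent.H319R2.od p (f p) : ℤ), ?_⟩
    have hbig' : (P : ℝ) < |((f p : ℤ) : ℝ)| := not_le.1 hbig
    have hne : f p ≠ 0 := by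
      intro h0
      rw [h0] at hbig'
      simp at hbig'
      linarith
    have := hrig (f p) p hne hy1.symm hpc.1 P hPr (by
      intro j
      refine hbig'.le.trans ?_
      have := hy2 j
      rw [T_eq] at this
      exact_mod_cast this)
    exact_mod_cast this
  have e1 : (P : ℝ) ^ (η - 1) * P = (P : ℝ) ^ η := by
    rw [Real.rpow_sub_one (by linarith)]; field_simp
  have e2 : (P : ℝ) ^ (12 / 13 : ℝ) ≤ (P : ℝ) ^ η :=
    Real.rpow_le_rpow_of_exponent_le hPr hη12.le
  have e3 : (L.card : ℝ) = L1.card + L2.card := by exact_mod_cast hsplit.symm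
  have hpos : 0 ≤ (P : ℝ) ^ η := by positivity
  have h2' : (L2.card : ℝ) ≤ C3 * (C2 + 1) * (P : ℝ) ^ η := by
    refine h2.trans ?_
    rw [mul_assoc C2, e1]
    have : C3 * (C2 * (P : ℝ) ^ η + (P : ℝ) ^ (12 / 13 : ℝ)) ≤ C3 * (C2 * (P : ℝ) ^ η + (P : ℝ) ^ η) := by
      apply mul_le_mul_of_nonneg_left _ hC3.le
      linarith
    refine this.trans (le_of_eq ?_)
    ring
  rw [e3]
  linarith

end Pool.Agent.Results.MP_edb5be_nt.CycleLengths
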