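import Mathlib
import Pool.Agent.H499R2.LT.R5
import Pool.Agent.H499R2.LT.CY
import Pool.Agent.H499R2.NDCor2

set_option autoImplicit false

/-!
The law of the entrance times into the cycles of the `3x+1` map on the integers.
-/

namespace Pool.Agent.Results.MP_edb5be_nt.EntranceLaw

open Filter Topology

/-- the `3x+1` map on the integers -/
def T (x : ℤ) : ℤ := if x % 2 = 0 then x / 2 else (3 * x + 1) / 2

/-- `Z` is a cycle of `T`. -/
def IsCycle (Z : Finset ℤ) : Prop :=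
  ∃ (x : ℤ) (p : ℕ), 1 ≤ p ∧ T^[p] x = x ∧ Z = (Finset.range p).image fun i => T^[i] x

/-- The trajectory of `x` enters `Z` after exactly `k` steps. -/
def Enters (Z : Finset ℤ) (k : ℕ) (x : ℤ) : Prop := T^[k] x ∈ Z ∧ ∀ i < k, T^[i] x ∉ Z

/-- the number of odd terms among `x, T x, ..., T^(k-1) x` -/
def odds (k : ℕ) (x : ℤ) : ℕ := ((Finset.range k).filter fun i => T^[i] x % 2 = 1).card

/-- The set of the positive integers with the property `P` has natural density `l`. -/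
def HasDensity (P : ℕ → Prop) (l : ℝ) : Prop :=
  Tendsto (fun N : ℕ => (Set.ncard {n : ℕ | 1 ≤ n ∧ n ≤ N ∧ P n} : ℝ) / N) atTop (𝓝 l)

/-- `2 / log (4/3) * log n + x * log 3 * √(2 log n / (log (4/3))^3)` -/
noncomputable def bound (x : ℝ) (n : ℕ) : ℝ :=
  2 / Real.log (4 / 3) * Real.log n
    + x * (Real.log 3 * Real.sqrt (2 * Real.log n / Real.log (4 / 3) ^ 3))

/-- The distribution function of the standard normal law. -/
noncomputable def Phi (x : ℝ) : ℝ :=
  ProbabilityTheory.cdf (ProbabilityTheory.gaussianReal 0 1) x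

theorem odds_eq (k : ℕ) (x : ℤ) : Pool.Agent.H499R2.LT.od 1 k x = (odds k x : ℤ) := by
  induction k with
  | zero => rfl
  | succ k ih =>
    rw [Pool.Agent.H499R2.LT.od_add, ih]
    unfold odds
    rw [Finset.range_add_one, Finset.filter_insert]
    have h1 : Pool.Agent.H499R2.LT.od 1 1 (T^[k] x) = if T^[k] x % 2 = 0 then 0 else 1 := by
      rw [Pool.Agent.H499R2.LT.od, Pool.Agent.H499R2.LT.od, add_zero]
    change _ + Pool.Agent.H499R2.LT.od 1 1 (T^[k] x) = _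
    rw [h1]
    rcases Int.emod_two_eq_zero_or_one (T^[k] x) with h | h
    · rw [if_pos h, if_neg (by omega)]
      simp
    · rw [if_neg (by omega), if_pos h, Finset.card_insert_of_notMem (by simp)]
      push_cast
      ring

theorem cyc_mem {x : ℤ} {p : ℕ} (hp : 1 ≤ p) (hx : T^[p] x = x) (i : ℕ) :
    T^[i] x ∈ (Finset.range p).image fun i => T^[i] x :=
  Finset.mem_image.2 ⟨i % p, Finset.mem_range.2 (Nat.mod_lt _ hp),
    (Pool.Agent.H499R2.LT.CY.iter_mod hp hx i).symm⟩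

theorem cyc_closed {Z : Finset ℤ} (hZ : IsCycle Z) {y : ℤ} (hy : y ∈ Z) (j : ℕ) : T^[j] y ∈ Z := by
  obtain ⟨x, p, hp, hx, rfl⟩ := hZ
  obtain ⟨i, _, rfl⟩ := Finset.mem_image.1 hy
  rw [← Function.iterate_add_apply]
  exact cyc_mem hp hx _

theorem cyc_back {Z : Finset ℤ} (hZ : IsCycle Z) {y z : ℤ} (hy : y ∈ Z) (hz : z ∈ Z) :
    ∃ j : ℕ, T^[j] y = z := by
  obtain ⟨x, p, hp, hx, rfl⟩ := hZ
  obtain ⟨i, hi, rfl⟩ := Finset.mem_image.1 hy
  obtain ⟨j, _, rfl⟩ := Finset.mem_image.1 hz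
  rw [Finset.mem_range] at hi
  refine ⟨j + (p - i), ?_⟩
  rw [← Function.iterate_add_apply]
  have e : j + (p - i) + i = j + p := by omega
  rw [e, Function.iterate_add_apply, hx]

theorem cyc_eq {Z Z' : Finset ℤ} (hZ : IsCycle Z) (hZ' : IsCycle Z') {y : ℤ} (hy : y ∈ Z) (hy' : y ∈ Z') :
    Z = Z' := by
  ext z
  constructor
  · intro hz
    obtain ⟨j, rfl⟩ := cyc_back hZ hy hz
    exact cyc_closed hZ' hy' j
  · intro hz
    obtain ⟨j, rfl⟩ := cyc_back hZ' hy' hz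
    exact cyc_closed hZ hy j

/-- the integers whose trajectory enters `Z` -/
def B (Z : Finset ℤ) : Set ℤ := {n : ℤ | ∃ k : ℕ, T^[k] n ∈ Z}

theorem B_inv {Z : Finset ℤ} (hZ : IsCycle Z) : Pool.Agent.H499R2.ND.Inv 1 (B Z) := by
  intro x
  constructor
  · rintro ⟨k, hk⟩
    refine ⟨k, ?_⟩
    change T^[k] (T x) ∈ Z
    rw [← Function.iterate_succ_apply, Function.iterate_succ_apply']
    exact cyc_closed hZ hk 1
  · rintro ⟨k, hk⟩
    exact ⟨k + 1, by rw [Function.iterate_succ_apply]; exact hk⟩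

theorem B_eq {Z Z' : Finset ℤ} (hZ : IsCycle Z) (hZ' : IsCycle Z') {n : ℤ} (hn : n ∈ B Z) (hn' : n ∈ B Z') :
    Z = Z' := by
  obtain ⟨k, hk⟩ := hn
  obtain ⟨j, hj⟩ := hn'
  refine cyc_eq hZ hZ' (y := T^[j + k] n) ?_ ?_
  · rw [Function.iterate_add_apply]; exact cyc_closed hZ hk j
  · rw [Nat.add_comm, Function.iterate_add_apply]; exact cyc_closed hZ' hj k

/-- the integers with eventually periodic trajectory -/
def EvPer : Set ℤ := {n : ℤ | ∃ k p : ℕ, 1 ≤ p ∧ T^[k + p] n = T^[k] n}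

theorem mem_ev (n : ℤ) : n ∈ EvPer ↔ ∃ k p : ℕ, 1 ≤ p ∧ T^[k + p] n = T^[k] n := Iff.rfl

theorem mem_B (Z : Finset ℤ) (n : ℤ) : n ∈ B Z ↔ ∃ k : ℕ, (Pool.Agent.H499R2.ND.Td 1)^[k] n ∈ Z := Iff.rfl

theorem ev_inv : Pool.Agent.H499R2.ND.Inv 1 EvPer := by
  intro x
  constructor
  · rintro ⟨k, p, hp, h⟩
    refine ⟨k, p, hp, ?_⟩
    change T^[k + p] (T x) = T^[k] (T x)
    rw [← Function.iterate_succ_apply, ← Function.iterate_succ_apply, Function.iterate_succ_apply',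
      Function.iterate_succ_apply', h]
  · rintro ⟨k, p, hp, h⟩
    refine ⟨k + 1, p, hp, ?_⟩
    rw [show k + 1 + p = (k + p) + 1 by omega, Function.iterate_succ_apply, Function.iterate_succ_apply]
    exact h

/-- Let `s = 1` or `s = -1`. (1) For every cycle `Z` of `T` consisting of integers of the sign of `s`
the integers of the sign of `s` whose trajectory enters `Z` have a positive natural density `δ Z`;
and for every real `x`, every `m ≥ 1` and all `a`, `b`, those whose trajectory enters `Z` after at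
most `bound x n` steps, the number of steps being `≡ a` and the number of odd terms before the
entrance `≡ b` modulo `m`, have natural density `δ Z * Phi x / m ^ 2`. (2) The integers of the sign
of `s` with eventually periodic trajectory have a natural density, and it is the sum of the `δ Z`
over all cycles `Z` of the sign of `s`. -/
theorem result (s : ℤ) (hs : s = 1 ∨ s = -1) : ∃ δ : Finset ℤ → ℝ,
    (∀ Z : Finset ℤ, IsCycle Z → (∀ y ∈ Z, 0 < s * y) →
      0 < δ Z ∧ HasDensity (fun n => ∃ k : ℕ, T^[k] (s * n) ∈ Z) (δ Z) ∧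
      ∀ (x : ℝ) (m : ℕ) (a b : ℤ), 1 ≤ m →
        HasDensity (fun n => ∃ k : ℕ, (k : ℝ) ≤ bound x n ∧ Enters Z k (s * n) ∧
          (k : ℤ) ≡ a [ZMOD m] ∧ (odds k (s * n) : ℤ) ≡ b [ZMOD m]) (δ Z * Phi x / m ^ 2)) ∧
    ∃ D : ℝ, HasDensity (fun n => ∃ k p : ℕ, 1 ≤ p ∧ T^[k + p] (s * n) = T^[k] (s * n)) D ∧
      HasSum (fun Z : {Z : Finset ℤ // IsCycle Z ∧ ∀ y ∈ Z, 0 < s * y} => δ Z) D := by
  choose δ _ hpos hδ hlaw using
    Pool.Agent.H499R2.LT.joint_side (d := 1) odd_one (by omega) hs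
  refine ⟨δ, fun Z hZ hsZ => ⟨?_, hδ Z, fun x m a b hm => ?_⟩, ?_⟩
  · obtain ⟨x, p, hp, hx, rfl⟩ := hZ
    have hxZ := cyc_mem hp hx 0
    have hx0 : x ≠ 0 := by
      rintro rfl
      simpa using hsZ _ hxZ
    obtain ⟨a, ha, ha3⟩ := Pool.Agent.H499R2.LT.CY.prime3 (T := T) hx0 hp
      (fun y hy => by unfold T; rw [if_pos hy]) (fun y hy => by unfold T; rw [if_neg (by omega)]) hx
    exact hpos _ ⟨a, ha, hsZ a ha, ha3⟩
  · have h := hlaw Z x m a b hm
    have e : δ Z / (m : ℝ) ^ 2 * Pool.Agent.H499R2.ND.Phi x = δ Z * Phi x / m ^ 2 := by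
      unfold Phi
      rw [← Pool.Agent.H499R2.ND.phi_cdf]
      ring
    rw [e] at h
    refine Pool.Agent.H499R2.LT.Dn_iff (fun n hn => ?_) h
    refine exists_congr fun k => ?_
    rw [Pool.Agent.H499R2.LT.tb2 x n hn, odds_eq]
    rfl
  · have hconv : ∀ (S : Set ℤ) (l : ℝ), Pool.Agent.H499R2.ND.HD s S l →
        Pool.Agent.H499R2.ND.Dn (fun n : ℕ => s * (n : ℤ) ∈ S) l :=
      fun S l hl => Pool.Agent.H499R2.LT.dn_side hl
    obtain ⟨D, _, _, hD⟩ := Pool.Agent.H499R2.ND.dens_side odd_one isCoprime_one_left hs ev_inv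
    have hDD := hconv EvPer D hD
    have hDD' : HasDensity (fun n => ∃ k p : ℕ, 1 ≤ p ∧ T^[k + p] (s * n) = T^[k] (s * n)) D :=
      Pool.Agent.H499R2.LT.Dn_iff (fun n _ => mem_ev (s * n)) hDD
    refine ⟨D, hDD', ?_⟩
    have hBd : ∀ Z : {Z : Finset ℤ // IsCycle Z ∧ ∀ y ∈ Z, 0 < s * y},
        Pool.Agent.H499R2.ND.HD s (B Z.1) (δ Z.1) := by
      intro Z
      obtain ⟨l, _, _, hl⟩ := Pool.Agent.H499R2.ND.dens_side odd_one isCoprime_one_left hs (B_inv Z.2.1)
      have h1 := hconv (B Z.1) l hl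
      have h1' := Pool.Agent.H499R2.LT.Dn_iff (fun n _ => mem_B Z.1 (s * n)) h1
      have h2 : l = δ Z.1 := tendsto_nhds_unique h1' (hδ Z.1)
      rwa [← h2]
    refine Pool.Agent.H499R2.ND.part_sum_one
      (ι := {Z : Finset ℤ // IsCycle Z ∧ ∀ y ∈ Z, 0 < s * y}) hs (fun Z => B Z.1) (fun Z => δ Z.1) hBd
      (fun Z Z' hne => ?_) (fun Z => B_inv Z.2.1) ev_inv (fun n hn hper => ?_) (fun Z n _ hn => ?_) hD
    · rw [Set.disjoint_left]
      intro n hn hn'
      exact hne (Subtype.ext (B_eq Z.2.1 Z'.2.1 hn hn'))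
    · obtain ⟨k, p, hp, h⟩ := hper
      have hx : T^[p] (T^[k] n) = T^[k] n := by
        rw [← Function.iterate_add_apply, Nat.add_comm]; exact h
      refine ⟨⟨(Finset.range p).image fun i => T^[i] (T^[k] n), ⟨_, p, hp, hx, rfl⟩, ?_⟩, k, cyc_mem hp hx 0⟩
      intro y hy
      obtain ⟨i, _, rfl⟩ := Finset.mem_image.1 hy
      rw [← Function.iterate_add_apply]
      exact (Pool.Agent.H499R2.ND.Td_one_iter_sign hs n (i + k)).1 hn
    · obtain ⟨k, hk⟩ := hn
      obtain ⟨Z, ⟨x, p, hp, hx, rfl⟩, _⟩ := Z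
      obtain ⟨i, _, hi⟩ := Finset.mem_image.1 hk
      refine ⟨k, p, hp, ?_⟩
      rw [Nat.add_comm, Function.iterate_add_apply, ← hi, ← Function.iterate_add_apply, Nat.add_comm,
        Function.iterate_add_apply, hx]

end Pool.Agent.Results.MP_edb5be_nt.EntranceLaw
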