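import Mathlib
import Pool.Agent.H319R2.Basic

set_option autoImplicit false

/-!
The integers lying on cycles of the 3x+1 map are power-sparse: for every
`η > H(log 2 / log 3) / log 2 = 0.94995...` (`H` the natural-log binary entropy), the number of
periodic integers of absolute value at most `X` is `O(X ^ η)`.
-/

namespace Pool.Agent.Results.MP_edb5be_nt.PeriodicCount

open Finset Pool.Agent.H319R2

/-- The 3x+1 map on the integers. -/
def T (x : ℤ) : ℤ := if x % 2 = 0 then x / 2 else (3 * x + 1) / 2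

theorem T_eq : T = Pool.Agent.H319R2.T := rfl

/-- number of periodic integers of absolute value at most `X` -/
noncomputable def periodicCount (X : ℝ) : ℕ :=
  Set.ncard {x : ℤ | x ∈ Function.periodicPts T ∧ |(x : ℝ)| ≤ X}

/-- periodic integers of absolute value less than `2 ^ k` -/
noncomputable def A (k : ℕ) : Finset ℤ := by
  classical
  exact (Finset.Ioo (-(2 ^ k : ℤ)) (2 ^ k)).filter fun x => x ∈ Function.periodicPts T

theorem mem_A {k : ℕ} {x : ℤ} : x ∈ A k ↔ |x| < 2 ^ k ∧ x ∈ Function.periodicPts T := by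
  classical
  unfold A
  rw [mem_filter, mem_Ioo, abs_lt]

/-- set of odd positions -/
def pset (k : ℕ) (x : ℤ) : Finset ℕ := (range k).filter fun i => (T^[i] x) % 2 = 1

theorem pset_card (k : ℕ) (x : ℤ) : (pset k x).card = od k x := rfl

theorem pset_inj {k : ℕ} {x y : ℤ} (h : pset k x = pset k y) : (2 : ℤ) ^ k ∣ x - y := by
  apply same_par
  intro i hi
  have hx : i ∈ pset k x ↔ (T^[i] x) % 2 = 1 := by simp [pset, hi]
  have hy : i ∈ pset k y ↔ (T^[i] y) % 2 = 1 := by simp [pset, hi]
  rw [h] at hx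
  have e := hx.symm.trans hy
  rw [T_eq] at e
  have p1 := par ((Pool.Agent.H319R2.T^[i]) x)
  have p2 := par ((Pool.Agent.H319R2.T^[i]) y)
  omega

/-- Chernoff bound: few sets have many elements -/
theorem chernoff (k : ℕ) (θ : ℝ) (h1 : 1 / 2 < θ) (h2 : θ < 1) :
    ((((range k).powerset.filter fun s => θ * k < (s.card : ℝ)).card : ℕ) : ℝ) ≤
      Real.exp (k * Real.binEntropy θ) := by
  set t : ℝ := θ / (1 - θ) with ht
  have hθ : 0 < θ := by linarith
  have h1θ : 0 < 1 - θ := by linarith
  have ht1 : 1 < t := by rw [ht, one_lt_div h1θ]; linarith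
  have ht0 : 0 < t := by linarith
  have hsum : ∑ s ∈ (range k).powerset, t ^ s.card = (1 + t) ^ k := by
    have := Finset.sum_pow_mul_eq_add_pow t 1 (range k)
    simpa [add_comm] using this
  have hlow : t ^ (θ * k) * ((((range k).powerset.filter fun s => θ * k < (s.card : ℝ)).card : ℕ) : ℝ)
      ≤ ∑ s ∈ (range k).powerset, t ^ s.card := by
    calc t ^ (θ * k) * ((((range k).powerset.filter fun s => θ * k < (s.card : ℝ)).card : ℕ) : ℝ)
        = ∑ s ∈ (range k).powerset.filter (fun s => θ * k < (s.card : ℝ)), t ^ (θ * k) := by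
          rw [sum_const, nsmul_eq_mul, mul_comm]
      _ ≤ ∑ s ∈ (range k).powerset.filter (fun s => θ * k < (s.card : ℝ)), t ^ s.card := by
          apply sum_le_sum
          intro s hs
          rw [mem_filter] at hs
          rw [← Real.rpow_natCast]
          exact Real.rpow_le_rpow_of_exponent_le ht1.le hs.2.le
      _ ≤ ∑ s ∈ (range k).powerset, t ^ s.card := by
          apply sum_le_sum_of_subset_of_nonneg (filter_subset _ _)
          intro s _ _
          positivity
  rw [hsum] at hlow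
  have hpos : 0 < t ^ (θ * k) := by positivity
  have e : Real.exp (k * Real.binEntropy θ) = (1 + t) ^ k / t ^ (θ * k) := by
    rw [eq_div_iff hpos.ne']
    rw [Real.binEntropy_eq_negMulLog_add_negMulLog_one_sub]
    unfold Real.negMulLog
    have hl1 : Real.log t = Real.log θ - Real.log (1 - θ) := by
      rw [ht, Real.log_div hθ.ne' h1θ.ne']
    have hl2 : Real.log (1 + t) = - Real.log (1 - θ) := by
      have : 1 + t = (1 - θ)⁻¹ := by rw [ht]; field_simp; ring
      rw [this, Real.log_inv]
    rw [← Real.exp_log hpos, Real.log_rpow ht0, ← Real.exp_add]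
    rw [← Real.exp_log (show 0 < (1 + t) ^ k by positivity), Real.log_pow]
    congr 1
    rw [hl1, hl2]
    ring
  rw [e, le_div_iff₀ hpos, mul_comm]
  exact hlow

theorem high_le (k : ℕ) (θ : ℝ) (h1 : 1 / 2 < θ) (h2 : θ < 1) :
    ((((A k).filter fun x => θ * k < (od k x : ℝ)).card : ℕ) : ℝ) ≤
      2 * Real.exp (k * Real.binEntropy θ) := by
  classical
  set F := (range k).powerset.filter fun s => θ * k < (s.card : ℝ) with hF
  have hsplit : (A k).filter (fun x => θ * k < (od k x : ℝ)) ⊆
      ((A k).filter fun x => θ * k < (od k x : ℝ) ∧ 0 ≤ x) ∪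
      ((A k).filter fun x => θ * k < (od k x : ℝ) ∧ x < 0) := by
    intro x hx
    rw [mem_filter] at hx
    rw [mem_union, mem_filter, mem_filter]
    rcases le_or_gt 0 x with h | h
    · exact Or.inl ⟨hx.1, hx.2, h⟩
    · exact Or.inr ⟨hx.1, hx.2, h⟩
  have c1 : ((A k).filter fun x => θ * k < (od k x : ℝ) ∧ 0 ≤ x).card ≤ F.card := by
    apply card_le_card_of_injOn (pset k)
    · intro x hx
      have hx := mem_filter.1 hx
      rw [hF]
      simp only [coe_filter, mem_powerset, Set.mem_ofPred_eq]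
      refine ⟨filter_subset _ _, ?_⟩
      rw [pset_card]; exact hx.2.1
    · intro x hx y hy hxy
      have hx := mem_filter.1 hx
      have hy := mem_filter.1 hy
      obtain ⟨c, hc⟩ := pset_inj hxy
      have hx1 := (mem_A.1 hx.1).1
      have hy1 := (mem_A.1 hy.1).1
      rw [abs_of_nonneg hx.2.2] at hx1
      rw [abs_of_nonneg hy.2.2] at hy1
      have hx0 := hx.2.2
      have hy0 := hy.2.2
      have hp : (0 : ℤ) < 2 ^ k := by positivity
      have hc0 : c = 0 := by
        rcases lt_trichotomy c 0 with h | h | h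
        · nlinarith
        · exact h
        · nlinarith
      rw [hc0] at hc; linarith
  have c2 : ((A k).filter fun x => θ * k < (od k x : ℝ) ∧ x < 0).card ≤ F.card := by
    apply card_le_card_of_injOn (pset k)
    · intro x hx
      have hx := mem_filter.1 hx
      rw [hF]
      simp only [coe_filter, mem_powerset, Set.mem_ofPred_eq]
      refine ⟨filter_subset _ _, ?_⟩
      rw [pset_card]; exact hx.2.1
    · intro x hx y hy hxy
      have hx := mem_filter.1 hx
      have hy := mem_filter.1 hy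
      obtain ⟨c, hc⟩ := pset_inj hxy
      have hx1 := (mem_A.1 hx.1).1
      have hy1 := (mem_A.1 hy.1).1
      rw [abs_of_neg hx.2.2] at hx1
      rw [abs_of_neg hy.2.2] at hy1
      have hx0 := hx.2.2
      have hy0 := hy.2.2
      have hp : (0 : ℤ) < 2 ^ k := by positivity
      have hc0 : c = 0 := by
        rcases lt_trichotomy c 0 with h | h | h
        · nlinarith
        · exact h
        · nlinarith
      rw [hc0] at hc; linarith
  have hch := chernoff k θ h1 h2
  have h3 := (card_le_card hsplit).trans (card_union_le _ _)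
  have h4 : ((((A k).filter fun x => θ * k < (od k x : ℝ)).card : ℕ) : ℝ) ≤ F.card + F.card := by
    exact_mod_cast h3.trans (Nat.add_le_add c1 c2)
  rw [← hF] at hch
  linarith

theorem low_le (k k' : ℕ) (θ : ℝ) (hk : θ * k * Real.log 3 ≤ k' * Real.log 2) :
    ((A k).filter fun x => (od k x : ℝ) ≤ θ * k).card ≤ (A k').card := by
  apply card_le_card_of_injOn (T^[k])
  · intro x hx
    have hx := mem_filter.1 hx
    obtain ⟨hx1, hx2⟩ := mem_A.1 hx.1
    rw [mem_coe, mem_A]
    constructor
    · have h := abs_iter_lt hx1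
      rw [← T_eq] at h
      refine lt_of_lt_of_le h ?_
      have : (3 : ℝ) ^ (od k x) ≤ 2 ^ k' := by
        rw [← Real.log_le_log_iff (by positivity) (by positivity), Real.log_pow, Real.log_pow]
        have h3 : 0 < Real.log 3 := Real.log_pos (by norm_num)
        nlinarith [hx.2]
      exact_mod_cast this
    · have := (Function.bijOn_periodicPts T).mapsTo.iterate k hx2
      exact this
  · have h := (Function.bijOn_periodicPts T).injOn
    have h' := h.iterate (Function.bijOn_periodicPts T).mapsTo k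
    apply h'.mono
    intro x hx
    have hx := mem_filter.1 hx
    exact (mem_A.1 hx.1).2

theorem rec_step (k k' : ℕ) (θ : ℝ) (h1 : 1 / 2 < θ) (h2 : θ < 1)
    (hk : θ * k * Real.log 3 ≤ k' * Real.log 2) :
    ((A k).card : ℝ) ≤ (A k').card + 2 * Real.exp (k * Real.binEntropy θ) := by
  have a := high_le k θ h1 h2
  have b := low_le k k' θ hk
  have c : ((A k).filter fun x => (od k x : ℝ) ≤ θ * k).card +
      ((A k).filter fun x => θ * k < (od k x : ℝ)).card = (A k).card := by
    rw [← card_filter_add_card_filter_not (s := A k) (p := fun x => (od k x : ℝ) ≤ θ * k)]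
    simp only [not_le]
  have b' : (((A k).filter fun x => (od k x : ℝ) ≤ θ * k).card : ℝ) ≤ (A k').card := by
    exact_mod_cast b
  have c' : (((A k).filter fun x => (od k x : ℝ) ≤ θ * k).card : ℝ) +
      (((A k).filter fun x => θ * k < (od k x : ℝ)).card : ℝ) = (A k).card := by
    exact_mod_cast c
  linarith

theorem A_bound (θ : ℝ) (h1 : 1 / 2 < θ) (h2 : θ * Real.log 3 < Real.log 2) :
    ∃ C : ℝ, 0 < C ∧ ∀ k : ℕ, ((A k).card : ℝ) ≤ C * Real.exp (k * Real.binEntropy θ) := by
  have hl3 : 0 < Real.log 3 := Real.log_pos (by norm_num)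
  have hl2 : 0 < Real.log 2 := Real.log_pos (by norm_num)
  have hθ1 : θ < 1 := by
    by_contra h
    have h : 1 ≤ θ := not_lt.1 h
    have : Real.log 2 < Real.log 3 := Real.log_lt_log (by norm_num) (by norm_num)
    nlinarith
  have hθ0 : 0 < θ := by linarith
  set H := Real.binEntropy θ with hH
  have hHpos : 0 < H := Real.binEntropy_pos hθ0 hθ1
  obtain ⟨k0, hk0⟩ := exists_nat_gt (Real.log 2 / (Real.log 2 - θ * Real.log 3))
  have hd : 0 < Real.log 2 - θ * Real.log 3 := by linarith
  have hk0' : Real.log 2 < k0 * (Real.log 2 - θ * Real.log 3) := by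
    rwa [div_lt_iff₀ hd] at hk0
  set C0 : ℝ := ∑ k ∈ range (k0 + 1), ((A k).card : ℝ) with hC0
  have hC0nn : 0 ≤ C0 := by
    rw [hC0]; exact sum_nonneg (fun i _ => Nat.cast_nonneg _)
  have hexp : Real.exp (-H) < 1 := by rw [Real.exp_lt_one_iff]; linarith
  set C : ℝ := C0 + 2 / (1 - Real.exp (-H)) with hC
  have hden : 0 < 1 - Real.exp (-H) := by linarith
  have hCpos : 0 < C := by
    have : 0 < 2 / (1 - Real.exp (-H)) := by positivity
    linarith
  refine ⟨C, hCpos, ?_⟩
  intro k
  induction k using Nat.strong_induction_on with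
  | _ k ih =>
    rcases le_or_gt k k0 with hk | hk
    · have hle : ((A k).card : ℝ) ≤ C0 := by
        rw [hC0]
        exact single_le_sum (f := fun k => ((A k).card : ℝ)) (fun i _ => Nat.cast_nonneg _)
          (mem_range.2 (by omega))
      have h3 : 1 ≤ Real.exp (k * H) := by
        rw [← Real.exp_zero]; apply Real.exp_le_exp.2; positivity
      have : C0 ≤ C := by
        have : 0 < 2 / (1 - Real.exp (-H)) := by positivity
        linarith
      nlinarith
    · have hkpos : 0 < k := by omega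
      have hcond : θ * k * Real.log 3 ≤ ((k - 1 : ℕ) : ℝ) * Real.log 2 := by
        rw [Nat.cast_sub (by omega), Nat.cast_one]
        have : (k0 : ℝ) ≤ k := by exact_mod_cast hk.le
        nlinarith
      have hr := rec_step k (k - 1) θ h1 hθ1 hcond
      have hi := ih (k - 1) (by omega)
      have e : Real.exp (((k - 1 : ℕ) : ℝ) * H) = Real.exp (k * H) * Real.exp (-H) := by
        rw [← Real.exp_add]; congr 1
        rw [Nat.cast_sub (by omega), Nat.cast_one]; ring
      rw [e] at hi
      have hCge : 2 ≤ C * (1 - Real.exp (-H)) := by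
        have : 2 = 2 / (1 - Real.exp (-H)) * (1 - Real.exp (-H)) := by field_simp
        rw [hC]
        nlinarith
      have hpos : 0 < Real.exp (k * H) := Real.exp_pos _
      rw [← hH] at hr
      nlinarith

theorem log3_lower : 84 / 53 * Real.log 2 ≤ Real.log 3 := by
  have h : Real.log ((2 : ℝ) ^ 84) ≤ Real.log ((3 : ℝ) ^ 53) :=
    Real.log_le_log (by positivity) (by norm_num)
  rw [Real.log_pow, Real.log_pow] at h
  push_cast at h
  linarith

theorem log5_upper : Real.log 5 ≤ 137 / 59 * Real.log 2 := by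
  have h : Real.log ((5 : ℝ) ^ 59) ≤ Real.log ((2 : ℝ) ^ 137) :=
    Real.log_le_log (by positivity) (by norm_num)
  rw [Real.log_pow, Real.log_pow] at h
  push_cast at h
  linarith

/-- Gibbs' inequality for the binary entropy -/
theorem gibbs (θ t : ℝ) (h0 : 0 < θ) (h1 : θ < 1) (ht : 0 < t) :
    Real.binEntropy θ ≤ Real.log (1 + t) - θ * Real.log t := by
  have h1θ : 0 < 1 - θ := by linarith
  rw [Real.binEntropy_eq_negMulLog_add_negMulLog_one_sub]
  unfold Real.negMulLog
  have a : Real.log (t / ((1 + t) * θ)) ≤ t / ((1 + t) * θ) - 1 :=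
    Real.log_le_sub_one_of_pos (by positivity)
  have b : Real.log (1 / ((1 + t) * (1 - θ))) ≤ 1 / ((1 + t) * (1 - θ)) - 1 :=
    Real.log_le_sub_one_of_pos (by positivity)
  rw [Real.log_div ht.ne' (by positivity), Real.log_mul (by positivity) h0.ne'] at a
  rw [Real.log_div one_ne_zero (by positivity), Real.log_mul (by positivity) h1θ.ne',
    Real.log_one] at b
  have a' := mul_le_mul_of_nonneg_left a h0.le
  have b' := mul_le_mul_of_nonneg_left b h1θ.le
  have e1 : θ * (t / ((1 + t) * θ) - 1) + (1 - θ) * (1 / ((1 + t) * (1 - θ)) - 1) = 0 := by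
    field_simp
    ring
  nlinarith

theorem numeric : Real.binEntropy (Real.log 2 / Real.log 3) / Real.log 2 < 0.951 := by
  have hl2 : 0 < Real.log 2 := Real.log_pos (by norm_num)
  have hl3 : 0 < Real.log 3 := Real.log_pos (by norm_num)
  have h23 : Real.log 2 < Real.log 3 := Real.log_lt_log (by norm_num) (by norm_num)
  set θ := Real.log 2 / Real.log 3 with hθ
  have hθ0 : 0 < θ := by positivity
  have hθ1 : θ < 1 := by rw [hθ, div_lt_one hl3]; exact h23
  rw [div_lt_iff₀ hl2]
  have g := gibbs θ (16 / 9) hθ0 hθ1 (by norm_num)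
  have e1 : Real.log (1 + 16 / 9) = 2 * Real.log 5 - 2 * Real.log 3 := by
    rw [show (1 : ℝ) + 16 / 9 = 5 ^ 2 / 3 ^ 2 by norm_num, Real.log_div (by norm_num) (by norm_num),
      Real.log_pow, Real.log_pow]; push_cast; ring
  have e2 : Real.log (16 / 9) = 4 * Real.log 2 - 2 * Real.log 3 := by
    rw [show (16 : ℝ) / 9 = 2 ^ 4 / 3 ^ 2 by norm_num, Real.log_div (by norm_num) (by norm_num),
      Real.log_pow, Real.log_pow]; push_cast; ring
  rw [e1, e2] at g
  have h3 := log3_lower
  have h5 := log5_upper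
  -- θ * log 3 = log 2
  have hθ3 : θ * Real.log 3 = Real.log 2 := by rw [hθ]; field_simp
  -- need `4 θ log 2 ≥ ...`; `θ = log 2 / log 3`
  set a := Real.log 2
  set b := Real.log 3
  set c := Real.log 5
  -- goal: 2c - 2b - θ (4a - 2b) < 0.951 a
  have hx : 2 * c - 2 * b + 1.049 * a < 4 * θ * a := by
    have : 4 * θ * a = 4 * a ^ 2 / b := by rw [hθ]; ring
    rw [this, lt_div_iff₀ hl3]
    nlinarith [mul_pos hl2 hl2, mul_nonneg hl2.le (sub_nonneg.2 h3),
      mul_nonneg hl3.le (sub_nonneg.2 h5), mul_nonneg (sub_nonneg.2 h3) (sub_nonneg.2 h3)]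
  nlinarith

/-- For every exponent `η` larger than the binary entropy (in base 2) of `log 2 / log 3`, there is
`C` such that for every `X ≥ 1` there are at most `C X ^ η` periodic integers of absolute value
at most `X`; moreover `η = 0.951 < 1` is such an exponent. -/
theorem result :
    (∀ η : ℝ, Real.binEntropy (Real.log 2 / Real.log 3) / Real.log 2 < η →
      ∃ C : ℝ, ∀ X : ℝ, 1 ≤ X →
        {x : ℤ | x ∈ Function.periodicPts T ∧ |(x : ℝ)| ≤ X}.Finite ∧
        (periodicCount X : ℝ) ≤ C * X ^ η) ∧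
    Real.binEntropy (Real.log 2 / Real.log 3) / Real.log 2 < 0.951 := by
  refine ⟨?_, numeric⟩
  intro η hη
  have hl2 : 0 < Real.log 2 := Real.log_pos (by norm_num)
  have hl3 : 0 < Real.log 3 := Real.log_pos (by norm_num)
  have h3u : Real.log 3 < 2 * Real.log 2 := by
    have h : Real.log 3 < Real.log (2 ^ 2) := Real.log_lt_log (by norm_num) (by norm_num)
    rw [Real.log_pow] at h; push_cast at h; linarith
  set θ0 := Real.log 2 / Real.log 3 with hθ0
  have hhalf : 1 / 2 < θ0 := by rw [hθ0, lt_div_iff₀ hl3]; linarith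
  -- choose θ slightly below θ0
  obtain ⟨θ, hθa, hθb, hθc⟩ : ∃ θ : ℝ, 1 / 2 < θ ∧ θ < θ0 ∧ Real.binEntropy θ / Real.log 2 < η := by
    have hcont : Filter.Tendsto (fun θ => Real.binEntropy θ / Real.log 2) (nhds θ0)
        (nhds (Real.binEntropy θ0 / Real.log 2)) :=
      (Real.binEntropy_continuous.tendsto θ0).div_const _
    have h1 : ∀ᶠ θ in nhds θ0, Real.binEntropy θ / Real.log 2 < η :=
      hcont.eventually (gt_mem_nhds hη)
    have h2 : ∀ᶠ θ in nhdsWithin θ0 (Set.Iio θ0), Real.binEntropy θ / Real.log 2 < η :=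
      h1.filter_mono nhdsWithin_le_nhds
    have h3 : ∀ᶠ θ in nhdsWithin θ0 (Set.Iio θ0), 1 / 2 < θ :=
      (lt_mem_nhds hhalf : ∀ᶠ θ in nhds θ0, 1 / 2 < θ).filter_mono nhdsWithin_le_nhds
    have h4 : ∀ᶠ θ in nhdsWithin θ0 (Set.Iio θ0), θ < θ0 := self_mem_nhdsWithin
    obtain ⟨θ, h⟩ := (h2.and (h3.and h4)).exists
    exact ⟨θ, h.2.1, h.2.2, h.1⟩
  have hθ3 : θ * Real.log 3 < Real.log 2 := by
    rwa [hθ0, lt_div_iff₀ hl3] at hθb
  obtain ⟨C, hC0, hC⟩ := A_bound θ hθa hθ3
  have hηpos : 0 < η := by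
    have hθ1 : θ < 1 := by
      have : θ0 < 1 := by
        rw [hθ0, div_lt_one hl3]; exact Real.log_lt_log (by norm_num) (by norm_num)
      linarith
    have := Real.binEntropy_pos (show 0 < θ by linarith) hθ1
    have : 0 < Real.binEntropy θ / Real.log 2 := by positivity
    linarith
  refine ⟨C * 2 ^ η, ?_⟩
  intro X hX
  -- choose k with X < 2^k ≤ 2X
  set k := Nat.log 2 ⌊X⌋₊ + 1 with hk
  have hfl : ⌊X⌋₊ ≠ 0 := by
    have : 1 ≤ ⌊X⌋₊ := Nat.one_le_floor_iff _ |>.2 hX
    omega
  have hk1 : X < 2 ^ k := by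
    have h1 := Nat.lt_pow_succ_log_self (b := 2) (by norm_num) ⌊X⌋₊
    have h2 : ⌊X⌋₊ + 1 ≤ 2 ^ k := h1
    have h3 : X < ⌊X⌋₊ + 1 := Nat.lt_floor_add_one X
    have h4 : ((⌊X⌋₊ + 1 : ℕ) : ℝ) ≤ ((2 ^ k : ℕ) : ℝ) := by exact_mod_cast h2
    push_cast at h4
    linarith
  have hk2 : (2 : ℝ) ^ k ≤ 2 * X := by
    have h1 := Nat.pow_log_le_self 2 hfl
    have h3 : (⌊X⌋₊ : ℝ) ≤ X := Nat.floor_le (by linarith)
    have h4 : ((2 ^ Nat.log 2 ⌊X⌋₊ : ℕ) : ℝ) ≤ (⌊X⌋₊ : ℝ) := by exact_mod_cast h1
    push_cast at h4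
    rw [hk, pow_succ]
    linarith
  have hsub : {x : ℤ | x ∈ Function.periodicPts T ∧ |(x : ℝ)| ≤ X} ⊆ ((A k : Finset ℤ) : Set ℤ) := by
    intro x hx
    rw [mem_coe, mem_A]
    refine ⟨?_, hx.1⟩
    have : |(x : ℝ)| < 2 ^ k := lt_of_le_of_lt hx.2 hk1
    exact_mod_cast this
  refine ⟨(A k).finite_toSet.subset hsub, ?_⟩
  have hcard : periodicCount X ≤ (A k).card := by
    unfold periodicCount
    rw [← Set.ncard_coe_finset]
    exact Set.ncard_le_ncard hsub (A k).finite_toSet
  have hcard' : (periodicCount X : ℝ) ≤ (A k).card := by exact_mod_cast hcard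
  refine hcard'.trans ((hC k).trans ?_)
  rw [mul_assoc]
  apply mul_le_mul_of_nonneg_left _ hC0.le
  rw [← Real.mul_rpow (by norm_num) (by linarith)]
  calc Real.exp (k * Real.binEntropy θ) ≤ Real.exp (k * (η * Real.log 2)) := by
        apply Real.exp_le_exp.2
        apply mul_le_mul_of_nonneg_left _ (Nat.cast_nonneg _)
        rw [div_lt_iff₀ hl2] at hθc
        exact hθc.le
    _ = ((2 : ℝ) ^ k) ^ η := by
        rw [← Real.rpow_natCast, ← Real.rpow_mul (by norm_num), Real.rpow_def_of_pos (by norm_num)]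
        congr 1; ring
    _ ≤ (2 * X) ^ η := Real.rpow_le_rpow (by positivity) hk2 hηpos.le

end Pool.Agent.Results.MP_edb5be_nt.PeriodicCount
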